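import Pool.Agent.Run7.h560.Final

/-!
# Dilations of polytopes that have a lattice triangulation with simplices of volume one or two

If a `d`-dimensional lattice polytope `P` has a lattice triangulation all of whose maximal
simplices have normalised volume one or two, then `c P` has a unimodular triangulation for every
integer `c ≥ ⌊(d + 1) / 2⌋`; the bound `⌊(d + 1) / 2⌋` is optimal in every dimension.
-/

set_option autoImplicit false

namespace Pool.Agent.Results.MP_554263_co.VolumeTwo

open scoped Pointwise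

/-- `P` is a full-dimensional lattice polytope: the convex hull of finitely many points of
`ℤ ^ d`, with nonempty interior. -/
def IsLatticePolytope {d : ℕ} (P : Set (Fin d → ℝ)) : Prop :=
  (∃ S : Finset (Fin d → ℤ),
    P = convexHull ℝ ((fun v : Fin d → ℤ => fun i => (v i : ℝ)) '' (S : Set (Fin d → ℤ)))) ∧
  (interior P).Nonempty

/-- `σ` is the vertex set of a lattice simplex of normalised volume `m`: it consists of `d + 1`
distinct lattice points `v 0, …, v d`, and the determinant of the differences `v j - v 0` is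
`± m`. -/
def HasNormalizedVolume {d : ℕ} (σ : Finset (Fin d → ℝ)) (m : ℤ) : Prop :=
  ∃ v : Fin (d + 1) → (Fin d → ℤ), Function.Injective v ∧
    (∀ x : Fin d → ℝ, x ∈ σ ↔ ∃ j, x = fun i => (v j i : ℝ)) ∧
    |(Matrix.of fun (j i : Fin d) => v j.succ i - v 0 i).det| = m

/-- The simplicial complex `K` is a finite lattice triangulation of `Q` whose maximal simplices
are lattice simplices of normalised volume between `1` and `V`. -/
def IsLatticeTriangulation {d : ℕ} (Q : Set (Fin d → ℝ))
    (K : Geometry.SimplicialComplex ℝ (Fin d → ℝ)) (V : ℤ) : Prop :=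
  K.faces.Finite ∧ K.space = Q ∧
    ∀ σ ∈ K.facets, ∃ m : ℤ, 1 ≤ m ∧ m ≤ V ∧ HasNormalizedVolume σ m

/-- `Q` has a unimodular triangulation. -/
def HasUnimodularTriangulation {d : ℕ} (Q : Set (Fin d → ℝ)) : Prop :=
  ∃ K : Geometry.SimplicialComplex ℝ (Fin d → ℝ), IsLatticeTriangulation Q K 1

theorem result (d : ℕ) (hd : 1 ≤ d) :
    (∀ P : Set (Fin d → ℝ), IsLatticePolytope P →
      (∃ T : Geometry.SimplicialComplex ℝ (Fin d → ℝ), IsLatticeTriangulation P T 2) →
      ∀ c : ℕ, (d + 1) / 2 ≤ c → HasUnimodularTriangulation ((c : ℝ) • P)) ∧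
    (∀ c : ℕ, 1 ≤ c → c < (d + 1) / 2 → ∃ P : Set (Fin d → ℝ), IsLatticePolytope P ∧
      (∃ T : Geometry.SimplicialComplex ℝ (Fin d → ℝ), IsLatticeTriangulation P T 2) ∧
      ¬ HasUnimodularTriangulation ((c : ℝ) • P)) := by
  classical
  constructor
  · rintro P ⟨⟨S, hS⟩, hint⟩ ⟨T, hfin, hsp, hfac⟩ c hc
    subst hsp
    obtain ⟨K, h1, h2, h3⟩ := Run7.h560.Final.dilate T hfin hfac
      (by rw [hS]; exact convex_convexHull ℝ _) hint c (by omega) hc
    exact ⟨K, h1, h2, fun σ hσ => ⟨1, le_rfl, le_rfl, h3 σ hσ⟩⟩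
  · intro c _ hc
    obtain ⟨n, rfl⟩ : ∃ n, d = n + 1 := ⟨d - 1, by omega⟩
    refine ⟨convexHull ℝ (Run7.h560.Final.exS n : Set (Fin (n + 1) → ℝ)), ⟨?_, ?_⟩, ?_, ?_⟩
    · refine ⟨Finset.univ.image Run7.h560.Final.exV, ?_⟩
      congr 1
      ext x
      rw [Finset.mem_coe, Run7.h560.Final.mem_exS]
      simp only [Set.mem_image, Finset.mem_coe, Finset.mem_image, Finset.mem_univ, true_and]
      constructor
      · rintro ⟨j, rfl⟩; exact ⟨_, ⟨j, rfl⟩, rfl⟩
      · rintro ⟨_, ⟨j, rfl⟩, rfl⟩; exact ⟨j, rfl⟩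
    · exact Run7.h560.Final.exS_interior
    · refine ⟨Run7.h560.Final.simplexComplex _ Run7.h560.Final.exS_indep,
        Run7.h560.Final.simplexComplex_finite _ _,
        Run7.h560.Final.simplexComplex_space _ _ Run7.h560.Final.exS_nonempty, ?_⟩
      intro σ hσ
      rw [Run7.h560.Final.simplexComplex_facets _ _ Run7.h560.Final.exS_nonempty σ hσ]
      exact ⟨2, by norm_num, le_rfl, Run7.h560.Final.exS_enum⟩
    · rintro ⟨K, hfin, hsp, hfac⟩
      refine Run7.h560.Final.ex_sharp c hc K hfin hsp (fun σ hσ => ?_)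
      obtain ⟨m, hm1, hm2, hm⟩ := hfac σ hσ
      obtain rfl : m = 1 := le_antisymm hm2 hm1
      exact hm

end Pool.Agent.Results.MP_554263_co.VolumeTwo
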